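import Pool.Agent.H88.Zon5

open MeasureTheory

universe u

theorem Pool.Agent.Results.MP_fe925f_an.Counter.result :
    ∃ (X : Type) (_ : NormedAddCommGroup X) (_ : NormedSpace ℝ X) (_ : CompleteSpace X),
      ¬ FiniteDimensional ℝ X ∧
      Nonempty (X →ₗᵢ[ℝ] Lp ℝ 1 (volume : Measure unitInterval)) ∧
      Nonempty (StrongDual ℝ X →ₗᵢ[ℝ] Lp ℝ 1 (volume : Measure unitInterval)) ∧
      ∀ (H : Type u) [NormedAddCommGroup H] [InnerProductSpace ℝ H], IsEmpty (X →ₗᵢ[ℝ] H) :=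
  Pool.Agent.H88.Zon.main
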